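import Pool.Agent.Lib.MP_631532_al.Series

namespace Pool.Agent.Results.MP_631532_al.NotFinitelyBased

open Pool.Agent.Lib.MP_631532_al

/-- A polycyclic group, which is moreover a finite extension of a nilpotent group of class at most
two, whose laws are not finitely based: every finite set of its laws holds in some finite group
that violates another of its laws. -/
theorem result : ∃ (G : Type) (_ : Group G),
    (∃ (k : ℕ) (H : ℕ → Subgroup G), H 0 = ⊥ ∧ H k = ⊤ ∧ ∀ i < k, H i ≤ H (i + 1) ∧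
      ∃ _ : ((H i).subgroupOf (H (i + 1))).Normal,
        IsCyclic (H (i + 1) ⧸ (H i).subgroupOf (H (i + 1)))) ∧
    (∃ N : Subgroup G, N.Normal ∧ N.FiniteIndex ∧
      ∀ x ∈ N, ∀ y ∈ N, ∀ z ∈ N, Commute (x * y * x⁻¹ * y⁻¹) z) ∧
    ∀ W : Finset (FreeGroup ℕ), (∀ v ∈ W, ∀ f : ℕ → G, FreeGroup.lift f v = 1) →
      ∃ (X : Type) (_ : Group X), Finite X ∧ (∀ v ∈ W, ∀ f : ℕ → X, FreeGroup.lift f v = 1) ∧
        ∃ w : FreeGroup ℕ, (∀ f : ℕ → G, FreeGroup.lift f w = 1) ∧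
          ∃ f : ℕ → X, FreeGroup.lift f w ≠ 1 := by
  obtain ⟨G, inst, h1, h2, h3⟩ := exists_example
  obtain ⟨k, H, h0, hk, hs⟩ := series_of_chain (chain_of_poly h1)
  exact ⟨G, inst, ⟨k, H, h0, hk, fun i hi => ⟨(hs i hi).1, (hs i hi).cyclic⟩⟩, h2, h3⟩

end Pool.Agent.Results.MP_631532_al.NotFinitelyBased
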